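import Pool.Agent.Helper35.CWS.StB

/-!
# Project CWS, module CRD: reduction of a mapping cylinder neighbourhood to a cone at an isolated point
-/

set_option autoImplicit false

namespace Pool.Agent.Helper99.CWS

open Set Topology Metric Pool.Agent.Helper35.CWS

/-- **Module CRD.** -/
theorem hCRD : StCRD := by
  intro X _ _ _ O S V L _ h x hSc hM hxO hVo hSV
  have hxSV : x ∈ S ∩ V := by rw [hSV]; exact mem_singleton x
  have hxS : x ∈ S := hxSV.1
  have hxV : x ∈ V := hxSV.2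
  have h01 : (0 : ℝ) ∈ Ico (0 : ℝ) 1 := ⟨le_rfl, zero_lt_one⟩
  -- continuity of `l ↦ h (l, 0)`
  have hc0 : Continuous fun l : L => h (l, 0) := by
    have h1 : ContinuousOn (fun l : L => h (l, 0)) univ := by
      refine hM.hc.comp (by fun_prop) ?_
      intro l _
      exact ⟨mem_univ _, h01⟩
    exact continuousOn_univ.1 h1
  set Lx : Set L := {l : L | h (l, 0) = x} with hLx
  have hLcl : IsClosed Lx := isClosed_singleton.preimage hc0
  have hLop : IsOpen Lx := by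
    have e : Lx = (fun l : L => h (l, 0)) ⁻¹' V := by
      ext l
      constructor
      · intro hl
        have hl' : h (l, 0) = x := hl
        change h (l, 0) ∈ V
        rw [hl']
        exact hxV
      · intro hl
        have h1 : h (l, 0) ∈ S ∩ V := ⟨(hM.hS l 0 h01).2 rfl, hl⟩
        rw [hSV] at h1
        exact h1
    rw [e]
    exact hVo.preimage hc0
  have hLcpt : IsCompact Lx := by
    have h1 := hM.hp {x} (singleton_subset_iff.2 hxO) isCompact_singleton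
    have e : Lx = Prod.fst '' {p : L × ℝ | p.2 ∈ Ico (0 : ℝ) 1 ∧ h p ∈ ({x} : Set X)} := by
      ext l
      constructor
      · intro hl
        exact ⟨(l, 0), ⟨h01, hl⟩, rfl⟩
      · rintro ⟨⟨l', r⟩, ⟨hr, hx⟩, rfl⟩
        have hx' : h (l', r) = x := hx
        have hr' : r ∈ Ico (0 : ℝ) 1 := hr
        have hr0 : r = 0 := (hM.hS l' r hr').1 (by rw [hx']; exact hxS)
        subst hr0
        exact hx'
    rw [e]
    exact h1.image continuous_fst
  -- the complement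
  set C : Set X := h '' (Lxᶜ ×ˢ Ico (0 : ℝ) 1) with hC
  have hCo : IsOpen (O ∩ Cᶜ) := by
    rw [isOpen_iff_mem_nhds]
    rintro y ⟨hyO, hyC⟩
    obtain ⟨K, hK, hyK, hKO⟩ := exists_compact_subset hM.oO hyO
    have hG := hM.hp K hKO hK
    have hG' : IsCompact ({p : L × ℝ | p.2 ∈ Ico (0 : ℝ) 1 ∧ h p ∈ K} ∩ Prod.fst ⁻¹' Lxᶜ) :=
      hG.inter_right (hLop.isClosed_compl.preimage continuous_fst)
    have hD : IsCompact (h '' ({p : L × ℝ | p.2 ∈ Ico (0 : ℝ) 1 ∧ h p ∈ K} ∩ Prod.fst ⁻¹' Lxᶜ)) := by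
      refine hG'.image_of_continuousOn (hM.hc.mono ?_)
      rintro p ⟨⟨hp1, _⟩, _⟩
      exact ⟨mem_univ _, hp1⟩
    have hyD : y ∉ h '' ({p : L × ℝ | p.2 ∈ Ico (0 : ℝ) 1 ∧ h p ∈ K} ∩ Prod.fst ⁻¹' Lxᶜ) := by
      rintro ⟨p, ⟨⟨hp1, _⟩, hp3⟩, hpy⟩
      exact hyC ⟨p, ⟨hp3, hp1⟩, hpy⟩
    have hn : interior K ∩ (h '' ({p : L × ℝ | p.2 ∈ Ico (0 : ℝ) 1 ∧ h p ∈ K} ∩ Prod.fst ⁻¹' Lxᶜ))ᶜ ∈ 𝓝 y :=
      (isOpen_interior.inter hD.isClosed.isOpen_compl).mem_nhds ⟨hyK, hyD⟩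
    refine Filter.mem_of_superset hn ?_
    rintro z ⟨hzK, hzD⟩
    have hzK' : z ∈ K := interior_subset hzK
    refine ⟨hKO hzK', ?_⟩
    rintro ⟨p, ⟨hp1, hp2⟩, hpz⟩
    exact hzD ⟨p, ⟨⟨hp2, by rw [hpz]; exact hzK'⟩, hp1⟩, hpz⟩
  set O' : Set X := {x} ∪ h '' (Lx ×ˢ Ico (0 : ℝ) 1) with hO'
  have hO'O : O' ⊆ O := by
    rintro y (hy | ⟨⟨l, r⟩, ⟨_, hr⟩, rfl⟩)
    · rw [mem_singleton_iff] at hy
      rw [hy]
      exact hxO
    · exact hM.hm l r hr
  have hO'open : IsOpen O' := by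
    have e : O' = (O ∩ Cᶜ) ∩ (S \ V)ᶜ := by
      ext y
      constructor
      · intro hy
        have hyO := hO'O hy
        rcases hy with hy | ⟨⟨l, r⟩, ⟨hl, hr⟩, rfl⟩
        · rw [mem_singleton_iff] at hy
          subst hy
          refine ⟨⟨hyO, ?_⟩, fun h1 => h1.2 hxV⟩
          rintro ⟨⟨l, r⟩, ⟨hl, hr⟩, hlr⟩
          have hl' : l ∉ Lx := hl
          have hr0 : r = 0 := (hM.hS l r hr).1 (by rw [hlr]; exact hxS)
          subst hr0
          exact hl' hlr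
        · have hl1 : l ∈ Lx := hl
          have hr1 : r ∈ Ico (0 : ℝ) 1 := hr
          by_cases hr0 : r = 0
          · subst hr0
            have hlx : h (l, 0) = x := hl1
            rw [hlx]
            refine ⟨⟨hxO, ?_⟩, fun h1 => h1.2 hxV⟩
            rintro ⟨⟨l', r'⟩, ⟨hl', hr'⟩, hlr⟩
            have hl2 : l' ∉ Lx := hl'
            have hr0 : r' = 0 := (hM.hS l' r' hr').1 (by rw [hlr]; exact hxS)
            subst hr0
            exact hl2 hlr
          · have hrS : h (l, r) ∉ S := fun h1 => hr0 ((hM.hS l r hr1).1 h1)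
            refine ⟨⟨hyO, ?_⟩, fun h1 => hrS h1.1⟩
            rintro ⟨⟨l', r'⟩, ⟨hl', hr'⟩, hlr⟩
            have hl2 : l' ∉ Lx := hl'
            have hr2 : r' ∈ Ico (0 : ℝ) 1 := hr'
            have hr0' : r' ≠ 0 := by
              intro h0
              apply hrS
              rw [← hlr]
              exact (hM.hS l' r' hr2).2 h0
            have hrI : r ∈ Ioo (0 : ℝ) 1 := ⟨lt_of_le_of_ne hr1.1 (Ne.symm hr0), hr1.2⟩
            have hrI' : r' ∈ Ioo (0 : ℝ) 1 := ⟨lt_of_le_of_ne hr2.1 (Ne.symm hr0'), hr2.2⟩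
            have e := (hM.hi l' l r' hrI' r hrI hlr).1
            rw [e] at hl2
            exact hl2 hl1
      · rintro ⟨⟨hyO, hyC⟩, hySV⟩
        by_cases hyS : y ∈ S
        · have hyV : y ∈ V := by
            by_contra h1
            exact hySV ⟨hyS, h1⟩
          have h2 : y ∈ S ∩ V := ⟨hyS, hyV⟩
          rw [hSV] at h2
          exact Or.inl h2
        · obtain ⟨l, r, hr, hlr⟩ := hM.hs y hyO hyS
          have hr' : r ∈ Ico (0 : ℝ) 1 := ⟨hr.1.le, hr.2⟩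
          by_cases hl : l ∈ Lx
          · exact Or.inr ⟨(l, r), ⟨hl, hr'⟩, hlr⟩
          · exact absurd ⟨(l, r), ⟨hl, hr'⟩, hlr⟩ hyC
    rw [e]
    refine hCo.inter ?_
    have : IsClosed (S \ V) := hSc.sdiff hVo
    exact this.isOpen_compl
  refine ⟨O', Or.inl rfl, isCompact_iff_compactSpace.1 hLcpt, ?_⟩
  have hSx : ∀ l : L, l ∈ Lx → ∀ r ∈ Ico (0 : ℝ) 1, (h (l, r) = x ↔ r = 0) := by
    intro l hl r hr
    constructor
    · intro h1
      exact (hM.hS l r hr).1 (by rw [h1]; exact hxS)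
    · rintro rfl
      exact hl
  refine ⟨hO'open, ?_, ?_, ?_, ?_, ?_, ?_⟩
  · refine hM.hc.comp (by fun_prop) ?_
    rintro ⟨l, r⟩ ⟨_, hr⟩
    exact ⟨mem_univ _, hr⟩
  · intro l r hr
    exact Or.inr ⟨(l.1, r), ⟨l.2, hr⟩, rfl⟩
  · intro l r hr
    exact hSx l.1 l.2 r hr
  · intro l l' r hr r' hr' e
    obtain ⟨e1, e2⟩ := hM.hi l.1 l'.1 r hr r' hr' e
    exact ⟨Subtype.ext e1, e2⟩
  · intro y hy hyx
    rcases hy with hy | ⟨⟨l, r⟩, ⟨hl, hr⟩, hlr⟩
    · exact absurd hy hyx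
    · have hr1 : r ∈ Ico (0 : ℝ) 1 := hr
      have hl1 : l ∈ Lx := hl
      have hr0 : r ≠ 0 := by
        intro h0
        apply hyx
        have : h (l, r) = x := (hSx l hl1 r hr1).2 h0
        rw [← hlr, this]
        exact mem_singleton x
      exact ⟨⟨l, hl1⟩, r, ⟨lt_of_le_of_ne hr1.1 (Ne.symm hr0), hr1.2⟩, hlr⟩
  · intro K hKO' hK
    have h1 := hM.hp K (hKO'.trans hO'O) hK
    have hemb : IsClosedEmbedding (fun p : ↥Lx × ℝ => ((p.1.1, p.2) : L × ℝ)) :=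
      hLcl.isClosedEmbedding_subtypeVal.prodMap (IsClosedEmbedding.id (X := ℝ))
    exact hemb.isCompact_preimage h1

end Pool.Agent.Helper99.CWS
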